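import Pool.Agent.H261R3.LN.SStmts

/-! Task AssS of project LS (MP_e25190_gt): the assembly for simply connected targets. -/

set_option autoImplicit false

open scoped NNReal ENNReal unitInterval
open Set

namespace Pool.Agent.H554R3.LS

open Pool.Agent.H261R3.LN
open Pool.Agent.H261R3.LH (Lip1 IsLNR clip clip_nonneg TaskPath TaskNul)

section
variable {S : Type} [MetricSpace S]

lemma hl_mono {m : ℕ} {C C' : ℝ} (h : C ≤ C') {F : (Fin m → ℝ) → ℝ → S} (hF : HL C F) :
    HL C' F := by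
  refine ⟨fun η x x' => (hF.1 η x x').trans ?_, fun x a b => (hF.2 x a b).trans ?_⟩
  · have : (0:ℝ) ≤ (2:ℝ) ^ (-η) := by positivity
    exact mul_le_mul_of_nonneg_right (mul_le_mul_of_nonneg_right h this) dist_nonneg
  · exact mul_le_mul_of_nonneg_right h (abs_nonneg _)

lemma lip1_lw {C : ℝ} {f : ℝ → S} (h : Lip1 C f) : LipschitzWith (Real.toNNReal C) f :=
  LipschitzWith.of_dist_le_mul fun x y => by
    rw [Real.dist_eq]
    exact (h x y).trans (mul_le_mul_of_nonneg_right (Real.le_coe_toNNReal C) (abs_nonneg _))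

lemma clip_cont : Continuous clip := by
  unfold clip
  exact continuous_const.max (continuous_const.min continuous_id)

lemma clip_mono : Monotone clip := by
  intro a b h
  unfold clip
  exact max_le_max le_rfl (min_le_min le_rfl h)

lemma clip_mem (x : ℝ) : clip x ∈ Icc (0:ℝ) 1 := by
  unfold clip
  exact ⟨le_max_left _ _, max_le zero_le_one (min_le_left _ _)⟩

lemma clip_zero : clip 0 = 0 := by unfold clip; norm_num
lemma clip_one : clip 1 = 1 := by unfold clip; norm_num

/-- three consecutive homotopies -/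
noncomputable def glue3 (a b c : ℝ → S) (X L : ℝ) (t : ℝ) : S :=
  if t ≤ 1 / 3 then a (clip (3 * t)) else
    if t ≤ 2 / 3 then b (clip (3 * t - 1)) else c (-X + clip (3 * t - 2) * (L + X))

omit [MetricSpace S] in
lemma glue3_one {a b c : ℝ → S} {X L : ℝ} {t : ℝ} (ht : t ≤ 1 / 3) :
    glue3 a b c X L t = a (clip (3 * t)) := by
  unfold glue3; rw [if_pos ht]

omit [MetricSpace S] in
lemma glue3_two {a b c : ℝ → S} {X L : ℝ} (hab : a 1 = b 0) {t : ℝ} (ht : 1 / 3 ≤ t)
    (ht2 : t ≤ 2 / 3) : glue3 a b c X L t = b (clip (3 * t - 1)) := by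
  rcases eq_or_lt_of_le ht with h | h
  · unfold glue3
    rw [if_pos h.symm.le, ← h]
    have e1 : (3:ℝ) * (1 / 3) = 1 := by norm_num
    have e2 : (3:ℝ) * (1 / 3) - 1 = 0 := by norm_num
    rw [e2, e1, clip_one, clip_zero, hab]
  · unfold glue3
    rw [if_neg (not_le.2 h), if_pos ht2]

omit [MetricSpace S] in
lemma glue3_three {a b c : ℝ → S} {X L : ℝ} (hbc : b 1 = c (-X)) {t : ℝ} (ht : 2 / 3 ≤ t) :
    glue3 a b c X L t = c (-X + clip (3 * t - 2) * (L + X)) := by
  have h0 : ¬ t ≤ 1 / 3 := by intro h; linarith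
  rcases eq_or_lt_of_le ht with h | h
  · unfold glue3
    rw [if_neg h0, if_pos h.symm.le, ← h]
    have e1 : (3:ℝ) * (2 / 3) - 1 = 1 := by norm_num
    have e2 : (3:ℝ) * (2 / 3) - 2 = 0 := by norm_num
    rw [e1, e2, clip_one, clip_zero, zero_mul, add_zero, hbc]
  · unfold glue3
    rw [if_neg h0, if_neg (not_le.2 h)]

lemma glue3_cont {a b c : ℝ → S} (ha : Continuous a) (hb : Continuous b) (hc : Continuous c)
    {X L : ℝ} (hab : a 1 = b 0) (hbc : b 1 = c (-X)) : Continuous (glue3 a b c X L) := by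
  unfold glue3
  have hc1 : Continuous (fun t : ℝ => a (clip (3 * t))) :=
    ha.comp (clip_cont.comp (by fun_prop))
  have hc2 : Continuous (fun t : ℝ => b (clip (3 * t - 1))) :=
    hb.comp (clip_cont.comp (by fun_prop))
  have hc3 : Continuous (fun t : ℝ => c (-X + clip (3 * t - 2) * (L + X))) := by
    have h1 : Continuous (fun t : ℝ => clip (3 * t - 2)) := clip_cont.comp (by fun_prop)
    exact hc.comp (by fun_prop)
  refine Continuous.if_le hc1 (Continuous.if_le hc2 hc3 continuous_id continuous_const ?_)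
    continuous_id continuous_const ?_
  · intro t ht
    have e1 : 3 * t - 1 = 1 := by rw [ht]; norm_num
    have e2 : 3 * t - 2 = 0 := by rw [ht]; norm_num
    rw [e1, e2, clip_one, clip_zero, zero_mul, add_zero, hbc]
  · intro t ht
    have e1 : 3 * t = 1 := by rw [ht]; norm_num
    have h2 : t ≤ 2 / 3 := by rw [ht]; norm_num
    rw [if_pos h2, e1, clip_one]
    have e2 : (1:ℝ) - 1 = 0 := by norm_num
    rw [e2, clip_zero, hab]

lemma evar_lip {C : ℝ} {f : ℝ → S} (h : Lip1 C f) :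
    eVariationOn f (Icc 0 1) ≤ ENNReal.ofReal C := by
  have hL := lip1_lw h
  have h1 : eVariationOn (f ∘ id) (Icc (0:ℝ) 1) ≤ (Real.toNNReal C) * eVariationOn id (Icc (0:ℝ) 1) :=
    (hL.lipschitzOnWith (s := univ)).comp_eVariationOn_le (mapsTo_univ _ _)
  have h2 : eVariationOn (id : ℝ → ℝ) (Icc (0:ℝ) 1) ≤ ENNReal.ofReal (1 - 0) := by
    have h3 := (monotoneOn_id (s := Icc (0:ℝ) 1)).eVariationOn_eq
      (a := 0) (b := 1) (by norm_num) (by norm_num)
    rw [inter_self] at h3
    exact h3.le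
  rw [sub_zero, ENNReal.ofReal_one] at h2
  calc eVariationOn f (Icc 0 1) = eVariationOn (f ∘ id) (Icc (0:ℝ) 1) := rfl
    _ ≤ (Real.toNNReal C) * eVariationOn id (Icc (0:ℝ) 1) := h1
    _ ≤ (Real.toNNReal C) * 1 := by gcongr
    _ = ENNReal.ofReal C := by rw [mul_one]; rfl

lemma glue3_var {a b c : ℝ → S} {Ca Cb Cc : ℝ} (ha0 : 0 ≤ Ca) (hb0 : 0 ≤ Cb) (hc0 : 0 ≤ Cc)
    (ha : Lip1 Ca a) (hb : Lip1 Cb b) (hc : eVariationOn c univ ≤ ENNReal.ofReal Cc)
    {X L : ℝ} (hXL : 0 ≤ L + X) (hab : a 1 = b 0) (hbc : b 1 = c (-X)) :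
    eVariationOn (glue3 a b c X L) univ ≤ ENNReal.ofReal (Ca + (Cb + Cc)) := by
  have hU : (univ : Set ℝ) = Iic (1 / 3) ∪ (Icc (1 / 3) (2 / 3) ∪ Ici (2 / 3)) := by
    ext t
    simp only [mem_univ, mem_union, mem_Iic, mem_Icc, mem_Ici, true_iff]
    rcases le_total t (1 / 3) with h | h
    · exact Or.inl h
    · rcases le_total t (2 / 3) with h2 | h2
      · exact Or.inr (Or.inl ⟨h, h2⟩)
      · exact Or.inr (Or.inr h2)
  have hI2 : IsLeast (Icc (1 / 3 : ℝ) (2 / 3) ∪ Ici (2 / 3)) (1 / 3) := by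
    constructor
    · exact Or.inl ⟨le_rfl, by norm_num⟩
    · rintro t (h | h)
      · exact h.1
      · have : (2:ℝ) / 3 ≤ t := h
        linarith
  rw [hU, eVariationOn.union _ isGreatest_Iic hI2,
    eVariationOn.union _ (isGreatest_Icc (by norm_num)) isLeast_Ici]
  rw [ENNReal.ofReal_add ha0 (by positivity), ENNReal.ofReal_add hb0 hc0]
  refine add_le_add ?_ (add_le_add ?_ ?_)
  · have h1 : eVariationOn (glue3 a b c X L) (Iic (1 / 3)) =
        eVariationOn (a ∘ fun t => clip (3 * t)) (Iic (1 / 3)) :=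
      eVariationOn.congr fun t ht => glue3_one ht
    rw [h1]
    refine (eVariationOn.comp_le_of_monotoneOn a (t := Iic (1 / 3)) (s := Icc 0 1) _ ?_ ?_).trans
      (evar_lip ha)
    · intro s _ t _ hst
      exact clip_mono (by linarith)
    · intro s _
      exact clip_mem _
  · have h1 : eVariationOn (glue3 a b c X L) (Icc (1 / 3) (2 / 3)) =
        eVariationOn (b ∘ fun t => clip (3 * t - 1)) (Icc (1 / 3) (2 / 3)) :=
      eVariationOn.congr fun t ht => glue3_two hab ht.1 ht.2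
    rw [h1]
    refine (eVariationOn.comp_le_of_monotoneOn b (t := Icc (1 / 3) (2 / 3)) (s := Icc 0 1) _ ?_ ?_).trans
      (evar_lip hb)
    · intro s _ t _ hst
      exact clip_mono (by linarith)
    · intro s _
      exact clip_mem _
  · have h1 : eVariationOn (glue3 a b c X L) (Ici (2 / 3)) =
        eVariationOn (c ∘ fun t => -X + clip (3 * t - 2) * (L + X)) (Ici (2 / 3)) :=
      eVariationOn.congr fun t ht => glue3_three hbc ht
    rw [h1]
    refine (eVariationOn.comp_le_of_monotoneOn c (t := Ici (2 / 3)) (s := univ) _ ?_ ?_).trans hc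
    · intro s _ t _ hst
      have h2 : clip (3 * s - 2) ≤ clip (3 * t - 2) := clip_mono (by linarith)
      have h3 := mul_le_mul_of_nonneg_right h2 hXL
      simp only
      linarith
    · intro s _
      exact mem_univ _

end

lemma hpt_self {m : ℕ} (z : Hyp m) : hpt (fun i => z.x i) (Real.logb 2 z.y) = z := by
  unfold hpt
  cases z with
  | mk x y pos =>
    have h : (2:ℝ) ^ Real.logb 2 y = y := Real.rpow_logb (by norm_num) (by norm_num) pos
    simp only [Hyp.mk.injEq]
    exact ⟨trivial, h⟩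

theorem taskAssS : Pool.Agent.H261R3.LN.TaskAssS := by
  intro hPath hNul hSlice hSlab hS1 hS2 hSweep hOf hTo hBall m S _ _ _ hLNR p
  have hPP : PathProp S p := hPath S hLNR p
  have hNP : NulProp S p := fun C => hNul S hLNR p C
  obtain ⟨C0, hC0, hof⟩ := hOf m
  obtain ⟨C1, hC1, h1⟩ := hS1 hSlice S p m hPP C0
  obtain ⟨C2, hC2, h2⟩ := hS2 hSlab S p m hNP C1
  obtain ⟨C3, hC3, h3⟩ := hSweep S p m C2 hC2
  have hΔ : ∀ a b : S, dist a b ≤ Metric.diam (univ : Set S) := fun a b =>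
    Metric.dist_le_diam_of_mem isCompact_univ.isBounded (mem_univ _) (mem_univ _)
  obtain ⟨C4, hC4, h4⟩ := hTo m S (C1 + (C2 + C3)) (Metric.diam (univ : Set S)) (by positivity) hΔ
  refine ⟨C4, C1 + (C2 + C3), hC4, by positivity, fun R F hF => ?_⟩
  obtain ⟨X, hX⟩ := hBall m R
  have hF0 := hof S F hF
  obtain ⟨H1, h1a, h1b, h1c, h1d⟩ := h1 (fun x η => F (hpt x η)) hF0
  obtain ⟨H2, h2a, h2b, h2c, h2d⟩ := h2 (H1 1) (h1a 1) h1d
  obtain ⟨K, ka, kb, kc, kd, ke⟩ := h3 (H2 1) (h2a 1) h2d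
  obtain ⟨L0, hL0⟩ := kd X
  set L1 := max L0 (-X) with hL1
  have hL1a : L0 ≤ L1 := le_max_left _ _
  have hL1b : 0 ≤ L1 + X := by have := le_max_right L0 (-X); rw [← hL1] at this; linarith
  set G : ℝ → (Fin m → ℝ) → ℝ → S := fun t x η =>
    glue3 (fun s => H1 s x η) (fun s => H2 s x η) (fun L => K L x η) X L1 t with hG
  have hGL : ∀ t, HL (C1 + (C2 + C3)) (G t) := by
    intro t
    by_cases ht1 : t ≤ 1 / 3
    · have e : G t = H1 (clip (3 * t)) := by
        funext x η
        simp only [hG, glue3, if_pos ht1]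
      rw [e]
      exact hl_mono (by linarith) (h1a _)
    · by_cases ht2 : t ≤ 2 / 3
      · have e : G t = H2 (clip (3 * t - 1)) := by
          funext x η
          simp only [hG, glue3, if_neg ht1, if_pos ht2]
        rw [e]
        exact hl_mono (by linarith) (h2a _)
      · have e : G t = K (-X + clip (3 * t - 2) * (L1 + X)) := by
          funext x η
          simp only [hG, glue3, if_neg ht1, if_neg ht2]
        rw [e]
        exact hl_mono (by linarith) (ka _)
  refine ⟨fun t z => G t (fun i => z.x i) (Real.logb 2 z.y), fun t z w => h4 (G t) (hGL t) z w,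
    ?_, ?_, ?_, ?_⟩
  · intro z hz
    obtain ⟨hx, hη⟩ := hX z hz
    have hη1 : -X ≤ Real.logb 2 z.y := (abs_le.1 hη).1
    refine glue3_cont (lip1_lw (h1b _ _)).continuous (lip1_lw (h2b _ _)).continuous
      (lip1_lw (kb _ _)).continuous ?_ ?_
    · exact (h2c _ _).symm
    · exact (kc _ _ _ hη1).symm
  · intro z hz
    obtain ⟨hx, hη⟩ := hX z hz
    have hη1 : -X ≤ Real.logb 2 z.y := (abs_le.1 hη).1
    exact glue3_var hC1 hC2 hC3 (h1b _ _) (h2b _ _) (ke _ _) hL1b (h2c _ _).symm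
      (kc _ _ _ hη1).symm
  · intro z hz
    have e1 : (3:ℝ) * 0 = 0 := by norm_num
    change glue3 _ _ _ X L1 0 = F z
    rw [glue3_one (by norm_num), e1, clip_zero, h1c]
    change F (hpt (fun i => z.x i) (Real.logb 2 z.y)) = F z
    rw [hpt_self]
  · intro z hz
    obtain ⟨hx, hη⟩ := hX z hz
    have hη1 : -X ≤ Real.logb 2 z.y := (abs_le.1 hη).1
    have hη2 : Real.logb 2 z.y ≤ X := (abs_le.1 hη).2
    change glue3 _ _ _ X L1 1 = p
    rw [glue3_three (kc _ _ _ hη1).symm (by norm_num)]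
    have e1 : (3:ℝ) * 1 - 2 = 1 := by norm_num
    rw [e1, clip_one]
    have e2 : -X + 1 * (L1 + X) = L1 := by ring
    rw [e2]
    exact hL0 L1 hL1a _ _ hx hη2

end Pool.Agent.H554R3.LS
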