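import Pool.Agent.H261R3.LN.SStmts

/-! Task HLto of project LS (MP_e25190_gt). -/

set_option autoImplicit false

open scoped NNReal ENNReal
open Set

namespace Pool.Agent.H554R3.LS

open Pool.Agent.H261R3.LN
open Pool.Agent.H261R3.LH (Lip1)

lemma one_le_arg {m : ℕ} (z w : Hyp m) :
    1 ≤ 1 + (‖z.x - w.x‖ ^ 2 + (z.y - w.y) ^ 2) / (2 * z.y * w.y) := by
  have h1 := z.pos
  have h2 := w.pos
  have : 0 ≤ (‖z.x - w.x‖ ^ 2 + (z.y - w.y) ^ 2) / (2 * z.y * w.y) := by positivity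
  linarith

lemma hdist_nn {m : ℕ} (z w : Hyp m) : 0 ≤ hdist z w := Real.arcosh_nonneg (one_le_arg z w)

lemma cosh_hdist {m : ℕ} (z w : Hyp m) :
    Real.cosh (hdist z w) = 1 + (‖z.x - w.x‖ ^ 2 + (z.y - w.y) ^ 2) / (2 * z.y * w.y) :=
  Real.cosh_arcosh (one_le_arg z w)

lemma log_diff {m : ℕ} (z w : Hyp m) : |Real.log z.y - Real.log w.y| ≤ hdist z w := by
  have h1 := z.pos
  have h2 := w.pos
  have h3 : Real.cosh (Real.log z.y - Real.log w.y) ≤ Real.cosh (hdist z w) := by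
    rw [cosh_hdist, ← Real.log_div h1.ne' h2.ne', Real.cosh_log (div_pos h1 h2)]
    have e : (z.y / w.y + (z.y / w.y)⁻¹) / 2 = 1 + (z.y - w.y) ^ 2 / (2 * z.y * w.y) := by
      field_simp
      ring
    rw [e]
    have : (z.y - w.y) ^ 2 / (2 * z.y * w.y) ≤
        (‖z.x - w.x‖ ^ 2 + (z.y - w.y) ^ 2) / (2 * z.y * w.y) := by
      refine div_le_div_of_nonneg_right ?_ (by positivity)
      have : 0 ≤ ‖z.x - w.x‖ ^ 2 := by positivity
      linarith
    linarith
  have h4 := Real.cosh_le_cosh.1 h3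
  rwa [abs_of_nonneg (hdist_nn z w)] at h4

lemma cosh_small {d : ℝ} (h0 : 0 ≤ d) (h1 : d ≤ 1) : Real.cosh d ≤ 1 + d ^ 2 := by
  have h2 := Real.cosh_le_exp_half_sq d
  have h3 : |d ^ 2 / 2| ≤ 1 := by
    rw [abs_of_nonneg (by positivity)]
    nlinarith
  have h4 := Real.abs_exp_sub_one_le h3
  rw [abs_of_nonneg (by positivity : (0:ℝ) ≤ d ^ 2 / 2)] at h4
  have h5 := le_abs_self (Real.exp (d ^ 2 / 2) - 1)
  linarith

lemma x_diff {m : ℕ} (z w : Hyp m) (h : hdist z w ≤ 1) :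
    ‖z.x - w.x‖ ≤ 3 * w.y * hdist z w := by
  have h1 := z.pos
  have h2 := w.pos
  have hd := hdist_nn z w
  set d := hdist z w with hdd
  have hc := cosh_small hd h
  rw [hdd, cosh_hdist, ← hdd] at hc
  have h3 : (‖z.x - w.x‖ ^ 2 + (z.y - w.y) ^ 2) / (2 * z.y * w.y) ≤ d ^ 2 := by linarith
  rw [div_le_iff₀ (by positivity)] at h3
  have h4 : ‖z.x - w.x‖ ^ 2 ≤ d ^ 2 * (2 * z.y * w.y) := by
    have : 0 ≤ (z.y - w.y) ^ 2 := by positivity
    linarith
  have h5 : z.y ≤ 3 * w.y := by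
    have h6 := (abs_le.1 (log_diff z w)).2
    have h7 : Real.log z.y ≤ Real.log w.y + 1 := by linarith
    have h8 : z.y ≤ w.y * Real.exp 1 := by
      have := Real.exp_le_exp.2 h7
      rwa [Real.exp_add, Real.exp_log h1, Real.exp_log h2] at this
    have h9 : Real.exp 1 < 3 := by have := Real.exp_one_lt_d9; linarith
    nlinarith
  have h6 : ‖z.x - w.x‖ ^ 2 ≤ (3 * w.y * d) ^ 2 := by
    calc ‖z.x - w.x‖ ^ 2 ≤ d ^ 2 * (2 * z.y * w.y) := h4
      _ ≤ d ^ 2 * (2 * (3 * w.y) * w.y) := by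
          refine mul_le_mul_of_nonneg_left ?_ (by positivity)
          exact mul_le_mul_of_nonneg_right (by linarith) h2.le
      _ ≤ (3 * w.y * d) ^ 2 := by
          have : 0 ≤ d ^ 2 * w.y ^ 2 := by positivity
          nlinarith
  exact abs_le_of_sq_le_sq' h6 (by positivity) |>.2

lemma sup_le_norm {m : ℕ} (a b : EuclideanSpace ℝ (Fin m)) :
    dist (fun i => a i) (fun i => b i) ≤ ‖a - b‖ := by
  rw [dist_pi_le_iff (norm_nonneg _)]
  intro i
  rw [Real.dist_eq]
  have := PiLp.norm_apply_le (a - b) i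
  rw [PiLp.sub_apply, Real.norm_eq_abs] at this
  exact this

theorem taskHLto : Pool.Agent.H261R3.LN.TaskHLto := by
  intro m S _ C Δ hC hΔ
  refine ⟨|Δ| + 5 * C, by positivity, fun G hG z w => ?_⟩
  have hd := hdist_nn z w
  rcases le_or_gt 1 (hdist z w) with h | h
  · calc dist (G (fun i => z.x i) (Real.logb 2 z.y)) (G (fun i => w.x i) (Real.logb 2 w.y)) ≤ Δ :=
          hΔ _ _
      _ ≤ |Δ| := le_abs_self _
      _ ≤ |Δ| * hdist z w := le_mul_of_one_le_right (abs_nonneg _) h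
      _ ≤ (|Δ| + 5 * C) * hdist z w := by
          refine mul_le_mul_of_nonneg_right ?_ hd
          linarith
  · have h1 := z.pos
    have h2 := w.pos
    have hA : dist (G (fun i => z.x i) (Real.logb 2 z.y)) (G (fun i => z.x i) (Real.logb 2 w.y)) ≤
        C * (2 * hdist z w) := by
      refine (hG.2 _ _ _).trans (mul_le_mul_of_nonneg_left ?_ hC)
      have hl2 : (1:ℝ) / 2 < Real.log 2 := by have := Real.log_two_gt_d9; linarith
      have e : Real.logb 2 z.y - Real.logb 2 w.y = (Real.log z.y - Real.log w.y) / Real.log 2 := by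
        unfold Real.logb; ring
      rw [e, abs_div, abs_of_pos (by linarith : 0 < Real.log 2), div_le_iff₀ (by linarith)]
      have h3 := log_diff z w
      nlinarith
    have hB : dist (G (fun i => z.x i) (Real.logb 2 w.y)) (G (fun i => w.x i) (Real.logb 2 w.y)) ≤
        C * (3 * hdist z w) := by
      refine (hG.1 _ _ _).trans ?_
      have e : (2:ℝ) ^ (-Real.logb 2 w.y) = w.y⁻¹ := by
        rw [Real.rpow_neg (by norm_num), Real.rpow_logb (by norm_num) (by norm_num) h2]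
      rw [e, mul_assoc]
      refine mul_le_mul_of_nonneg_left ?_ hC
      have h3 := (sup_le_norm z.x w.x).trans (x_diff z w h.le)
      rw [inv_mul_le_iff₀ h2]
      linarith
    calc dist (G (fun i => z.x i) (Real.logb 2 z.y)) (G (fun i => w.x i) (Real.logb 2 w.y))
        ≤ C * (2 * hdist z w) + C * (3 * hdist z w) := (dist_triangle _ _ _).trans (add_le_add hA hB)
      _ = 5 * C * hdist z w := by ring
      _ ≤ (|Δ| + 5 * C) * hdist z w := by
          refine mul_le_mul_of_nonneg_right ?_ hd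
          have := abs_nonneg Δ
          linarith

end Pool.Agent.H554R3.LS
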